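import Pool.Agent.NPC.Sat2
import Pool.Agent.NPC.Dec
import Pool.Agent.H671R2.PolyAuto
import Pool.Agent.R534.MSym.Gad

/-!
# Symmetrizing a 0-1 matrix by reordering its rows is NP-complete
-/

namespace Pool.Agent.Results.MP_e2e0ab_lc.MatrixSymmetryNPComplete

open Pool.Agent.NPC Pool.Agent.R534.MSym

/-- The entry in row `i` and column `j` of the 0-1 matrix given by the list of its rows. -/
def entry (A : List (List Bool)) (i j : ℕ) : Bool := (A.getD i []).getD j false

/-- The matrix given by the list of its rows. -/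
def mat (A : List (List Bool)) : Matrix (Fin A.length) (Fin A.length) ℤ :=
  fun i j => if entry A i j then 1 else 0

/-- Matrix symmetry: the square 0-1 matrix `A` has a permutation matrix `P` such that
`(P A)ᵀ = P A`. -/
def MS (A : List (List Bool)) : Prop :=
  (∀ r ∈ A, r.length = A.length) ∧ ∃ π : Equiv.Perm (Fin A.length),
    (π.permMatrix ℤ * mat A).transpose = π.permMatrix ℤ * mat A

/-- The list of rows is the adjacency matrix of a finite simple graph. -/
def IsGraph (A : List (List Bool)) : Prop :=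
  (∀ r ∈ A, r.length = A.length) ∧ ∀ i < A.length, entry A i i = false ∧
    ∀ j < A.length, entry A i j = entry A j i

/-- Graph isomorphism, for graphs given by adjacency matrices. -/
def GI (x : List (List Bool) × List (List Bool)) : Prop :=
  IsGraph x.1 ∧ IsGraph x.2 ∧ ∃ σ : Fin x.1.length ≃ Fin x.2.length,
    ∀ i j : Fin x.1.length, entry x.1 i j = entry x.2 (σ i) (σ j)

/-! ### Reformulations -/

theorem perm_iff (A : List (List Bool)) : (∃ π : Equiv.Perm (Fin A.length),
    (π.permMatrix ℤ * mat A).transpose = π.permMatrix ℤ * mat A) ↔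
    ∃ σ : ℕ → ℕ, Set.BijOn σ {i | i < A.length} {i | i < A.length} ∧
      ∀ i < A.length, ∀ j < A.length, entry A (σ i) j = entry A (σ j) i := by
  have key : ∀ π : Equiv.Perm (Fin A.length),
      (π.permMatrix ℤ * mat A).transpose = π.permMatrix ℤ * mat A ↔
        ∀ i j : Fin A.length, entry A (π i) j = entry A (π j) i := by
    intro π
    rw [Equiv.Perm.permMatrix, PEquiv.toMatrix_toPEquiv_mul]
    constructor
    · intro h i j
      have h1 := congrFun (congrFun h j) i
      simp only [Matrix.transpose_apply, Matrix.submatrix_apply, id_eq, mat] at h1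
      cases h2 : entry A (π i) j <;> cases h3 : entry A (π j) i <;> simp [h2, h3] at h1 ⊢
    · intro h
      ext j i
      simp only [Matrix.transpose_apply, Matrix.submatrix_apply, id_eq, mat, h i j]
  constructor
  · rintro ⟨π, hπ⟩
    rw [key] at hπ
    refine ⟨fun i => if h : i < A.length then (π ⟨i, h⟩ : ℕ) else i, ⟨?_, ?_, ?_⟩, ?_⟩
    · intro i hi
      simp only [Set.mem_ofPred_eq] at hi ⊢
      rw [dif_pos hi]
      exact (π ⟨i, hi⟩).2
    · intro i hi j hj hij
      simp only [Set.mem_ofPred_eq] at hi hj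
      simp only [dif_pos hi, dif_pos hj] at hij
      have := π.injective (Fin.ext hij)
      exact Fin.mk.inj_iff.1 this
    · intro j hj
      simp only [Set.mem_ofPred_eq] at hj
      refine ⟨(π.symm ⟨j, hj⟩ : ℕ), (π.symm ⟨j, hj⟩).2, ?_⟩
      simp only
      rw [dif_pos (π.symm ⟨j, hj⟩).2]
      simp
    · intro i hi j hj
      simp only [dif_pos hi, dif_pos hj]
      exact hπ ⟨i, hi⟩ ⟨j, hj⟩
  · rintro ⟨σ, hσ, h⟩
    have hinj : Function.Injective (fun i : Fin A.length => (⟨σ i, hσ.1 i.2⟩ : Fin A.length)) := by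
      intro i j hij
      exact Fin.ext (hσ.2.1 i.2 j.2 (Fin.mk.inj_iff.1 hij))
    refine ⟨Equiv.ofBijective _ (Finite.injective_iff_bijective.1 hinj), ?_⟩
    rw [key]
    intro i j
    exact h i i.2 j j.2

theorem entry_map {α : Type} (l : List α) (A : α → α → Bool) (d : α) {i j : ℕ} (hi : i < l.length)
    (hj : j < l.length) :
    entry (l.map fun x => l.map fun y => A x y) i j = A (l.getD i d) (l.getD j d) := by
  unfold entry
  rw [List.getD_eq_getElem (l.map fun x => l.map fun y => A x y) _ (by simpa using hi),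
    List.getElem_map, List.getD_eq_getElem (l.map fun y => A l[i] y) _ (by simpa using hj),
    List.getElem_map, List.getD_eq_getElem _ _ hi, List.getD_eq_getElem _ _ hj]

theorem ms_labels {α : Type} [DecidableEq α] (l : List α) (hl : l.Nodup) (A : α → α → Bool)
    (d : α) : MS (l.map fun x => l.map fun y => A x y) ↔ ∃ p : α → α, SymP l A p := by
  have hlen : (l.map fun x => l.map fun y => A x y).length = l.length := List.length_map _
  have hsq : ∀ r ∈ (l.map fun x => l.map fun y => A x y),
      r.length = (l.map fun x => l.map fun y => A x y).length := by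
    intro r hr
    rw [List.mem_map] at hr
    obtain ⟨x, _, rfl⟩ := hr
    simp
  unfold MS
  rw [perm_iff, hlen]
  have hget : ∀ i < l.length, l.getD i d ∈ l := by
    intro i hi
    rw [List.getD_eq_getElem _ _ hi]
    exact List.getElem_mem hi
  have hidx : ∀ i < l.length, l.idxOf (l.getD i d) = i := by
    intro i hi
    rw [List.getD_eq_getElem _ _ hi]
    exact hl.idxOf_getElem i hi
  have hgi : ∀ x ∈ l, l.getD (l.idxOf x) d = x := by
    intro x hx
    rw [List.getD_eq_getElem _ _ (List.idxOf_lt_length_iff.2 hx)]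
    exact List.getElem_idxOf _
  constructor
  · rintro ⟨_, σ, hσ, h⟩
    refine ⟨fun x => l.getD (σ (l.idxOf x)) d, ⟨?_, ?_, ?_⟩, ?_⟩
    · intro x hx
      exact hget _ (hσ.1 (List.idxOf_lt_length_iff.2 hx))
    · intro x hx y hy hxy
      have hx' := hσ.1 (List.idxOf_lt_length_iff.2 hx : l.idxOf x < l.length)
      have hy' := hσ.1 (List.idxOf_lt_length_iff.2 hy : l.idxOf y < l.length)
      have h1 := congrArg (fun z => l.idxOf z) hxy
      simp only at h1
      rw [hidx _ hx', hidx _ hy'] at h1
      have h2 := hσ.2.1 (List.idxOf_lt_length_iff.2 hx) (List.idxOf_lt_length_iff.2 hy) h1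
      rw [← hgi x hx, ← hgi y hy, h2]
    · intro y hy
      obtain ⟨i, hi, hiy⟩ := hσ.2.2 (List.idxOf_lt_length_iff.2 hy : l.idxOf y < l.length)
      refine ⟨l.getD i d, hget i hi, ?_⟩
      simp only
      rw [hidx i hi, hiy, hgi y hy]
    · intro x hx y hy
      have hx' := List.idxOf_lt_length_iff.2 hx
      have hy' := List.idxOf_lt_length_iff.2 hy
      have h1 := h _ hx' _ hy'
      rw [entry_map l A d (hσ.1 hx') hy', entry_map l A d (hσ.1 hy') hx', hgi x hx,
        hgi y hy] at h1
      exact h1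
  · rintro ⟨p, hp, h⟩
    refine ⟨fun r hr => ?_, fun i => l.idxOf (p (l.getD i d)), ⟨?_, ?_, ?_⟩, ?_⟩
    · rw [hsq r hr, hlen]
    · intro i hi
      exact List.idxOf_lt_length_iff.2 (hp.1 (hget i hi))
    · intro i hi j hj hij
      have h1 := congrArg (fun z => l.getD z d) hij
      simp only at h1
      rw [hgi _ (hp.1 (hget i hi)), hgi _ (hp.1 (hget j hj))] at h1
      have h2 := hp.2.1 (hget i hi) (hget j hj) h1
      rw [← hidx i hi, ← hidx j hj, h2]
    · intro j hj
      obtain ⟨x, hx, hxj⟩ := hp.2.2 (hget j hj)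
      refine ⟨l.idxOf x, List.idxOf_lt_length_iff.2 hx, ?_⟩
      simp only
      rw [hgi x hx, hxj, hidx j hj]
    · intro i hi j hj
      have hi' := List.idxOf_lt_length_iff.2 (hp.1 (hget i hi))
      have hj' := List.idxOf_lt_length_iff.2 (hp.1 (hget j hj))
      rw [entry_map l A d hi' hj, entry_map l A d hj' hi, hgi _ (hp.1 (hget i hi)),
        hgi _ (hp.1 (hget j hj))]
      exact h _ (hget i hi) _ (hget j hj)

/-! ### The reduction from 3SAT -/

/-- Formulas with three literals per clause. -/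
abbrev Fm := List (Lit ℕ × Lit ℕ × Lit ℕ)

/-- A clause. -/
def clq (φ : Fm) (c : ℕ) : Lit ℕ × Lit ℕ × Lit ℕ :=
  φ.getD c ((false, 0), (false, 0), (false, 0))

/-- The variables of the cycles. -/
def lv (φ : Fm) (g t : ℕ) : ℕ :=
  if g % 3 = 0 then
    (if t = 0 then (clq φ (g / 3)).1.2 else if t = 1 then 3 * φ.length + 4 * (g / 3)
      else 3 * φ.length + 4 * (g / 3) + 1)
  else if g % 3 = 1 then
    (if t = 0 then 3 * φ.length + 4 * (g / 3) + 1 else if t = 1 then (clq φ (g / 3)).2.1.2
      else 3 * φ.length + 4 * (g / 3) + 2)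
  else
    (if t = 0 then 3 * φ.length + 4 * (g / 3) + 2 else if t = 1 then
      3 * φ.length + 4 * (g / 3) + 3 else (clq φ (g / 3)).2.2.2)

/-- The signs: `true` for a negated variable. -/
def ln (φ : Fm) (g t : ℕ) : Bool :=
  if g % 3 = 0 then (if t = 0 then (clq φ (g / 3)).1.1 else false)
  else if g % 3 = 1 then (if t = 1 then !(clq φ (g / 3)).2.1.1 else false)
  else (if t = 2 then (clq φ (g / 3)).2.2.1 else false)

theorem clq_mem {φ : Fm} {c : ℕ} (hc : c < φ.length) : clq φ c ∈ φ := by
  unfold clq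
  rw [List.getD_eq_getElem _ _ hc]
  exact List.getElem_mem hc

theorem one3_iff (y : ℕ → Bool) : one3 y ↔
    ((y 0 && !y 1 && !y 2) || (!y 0 && y 1 && !y 2) || (!y 0 && !y 1 && y 2)) = true := by
  unfold one3
  cases y 0 <;> cases y 1 <;> cases y 2 <;> simp

/-- The values of the new variables. -/
def newv (a b c : Bool) (r : ℕ) : Bool :=
  if r = 0 then a && b else if r = 1 then !b && a else if r = 2 then !b && !a
    else c && !(!b && !a)

theorem sat_one3 (φ : Fm) (hb : Bounded3 φ) :
    SAT3 φ ↔ ∃ τ : ℕ → Bool, ∀ g < 3 * φ.length, one3 (lval (lv φ) (ln φ) τ g) := by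
  constructor
  · rintro ⟨τ, hτ⟩
    let τ' : ℕ → Bool := fun v => if v < 3 * φ.length then τ v else
      newv (decide (τ (clq φ ((v - 3 * φ.length) / 4)).1.2 = (clq φ ((v - 3 * φ.length) / 4)).1.1))
        (decide (τ (clq φ ((v - 3 * φ.length) / 4)).2.1.2 =
          (clq φ ((v - 3 * φ.length) / 4)).2.1.1))
        (decide (τ (clq φ ((v - 3 * φ.length) / 4)).2.2.2 =
          (clq φ ((v - 3 * φ.length) / 4)).2.2.1)) ((v - 3 * φ.length) % 4)
    refine ⟨τ', fun g hg => ?_⟩
    have hc : g / 3 < φ.length := by omega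
    have hsat := hτ _ (clq_mem hc)
    obtain ⟨hb1, hb2, hb3⟩ := hb _ (clq_mem hc)
    have hnew : ∀ r < 4, τ' (3 * φ.length + 4 * (g / 3) + r) =
        newv (decide (τ (clq φ (g / 3)).1.2 = (clq φ (g / 3)).1.1))
          (decide (τ (clq φ (g / 3)).2.1.2 = (clq φ (g / 3)).2.1.1))
          (decide (τ (clq φ (g / 3)).2.2.2 = (clq φ (g / 3)).2.2.1)) r := by
      intro r hr
      simp only [τ']
      rw [if_neg (by omega), show (3 * φ.length + 4 * (g / 3) + r - 3 * φ.length) / 4 = g / 3 by
        omega, show (3 * φ.length + 4 * (g / 3) + r - 3 * φ.length) % 4 = r by omega]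
    have hn0 := hnew 0 (by omega)
    have hn1 := hnew 1 (by omega)
    have hn2 := hnew 2 (by omega)
    have hn3 := hnew 3 (by omega)
    rw [Nat.add_zero] at hn0
    have ho1 : τ' (clq φ (g / 3)).1.2 = τ (clq φ (g / 3)).1.2 := if_pos hb1
    have ho2 : τ' (clq φ (g / 3)).2.1.2 = τ (clq φ (g / 3)).2.1.2 := if_pos hb2
    have ho3 : τ' (clq φ (g / 3)).2.2.2 = τ (clq φ (g / 3)).2.2.2 := if_pos hb3
    rw [one3_iff]
    generalize τ' = T at hn0 hn1 hn2 hn3 ho1 ho2 ho3 ⊢
    have hr : g % 3 = 0 ∨ g % 3 = 1 ∨ g % 3 = 2 := by omega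
    unfold lval lv ln
    rcases hr with hr | hr | hr <;> simp only [hr, if_true, if_false, one_ne_zero, zero_ne_one,
        OfNat.ofNat_ne_zero, OfNat.ofNat_ne_one, hn0, hn1, hn2, hn3, ho1, ho2, ho3, newv,
        OfNat.zero_ne_ofNat, OfNat.one_ne_ofNat] <;>
    · revert hsat
      generalize τ (clq φ (g / 3)).1.2 = a
      generalize τ (clq φ (g / 3)).2.1.2 = b
      generalize τ (clq φ (g / 3)).2.2.2 = c
      generalize (clq φ (g / 3)).1.1 = a'
      generalize (clq φ (g / 3)).2.1.1 = b'
      generalize (clq φ (g / 3)).2.2.1 = c'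
      revert a b c a' b' c'
      decide
  · rintro ⟨τ, hτ⟩
    refine ⟨τ, fun q hq => ?_⟩
    obtain ⟨c, hc, hqc⟩ := List.getElem_of_mem hq
    have hcq : clq φ c = q := by
      unfold clq
      rw [List.getD_eq_getElem _ _ hc, hqc]
    have h0 := hτ (3 * c) (by omega)
    have h1 := hτ (3 * c + 1) (by omega)
    have h2 := hτ (3 * c + 2) (by omega)
    rw [one3_iff] at h0 h1 h2
    unfold lval lv ln at h0 h1 h2
    have e0 : 3 * c % 3 = 0 := by omega
    have e1 : (3 * c + 1) % 3 = 1 := by omega
    have e2 : (3 * c + 2) % 3 = 2 := by omega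
    have f0 : 3 * c / 3 = c := by omega
    have f1 : (3 * c + 1) / 3 = c := by omega
    have f2 : (3 * c + 2) / 3 = c := by omega
    simp only [e0, e1, e2, f0, f1, f2, hcq, if_true, if_false, one_ne_zero, zero_ne_one,
        OfNat.ofNat_ne_zero, OfNat.ofNat_ne_one, 
        OfNat.zero_ne_ofNat, OfNat.one_ne_ofNat] at h0 h1 h2
    revert h0 h1 h2
    generalize τ (3 * φ.length + 4 * c) = v0
    generalize τ (3 * φ.length + 4 * c + 1) = v1
    generalize τ (3 * φ.length + 4 * c + 2) = v2
    generalize τ (3 * φ.length + 4 * c + 3) = v3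
    generalize τ q.1.2 = x
    generalize τ q.2.1.2 = y
    generalize τ q.2.2.2 = z
    generalize q.1.1 = x'
    generalize q.2.1.1 = y'
    generalize q.2.2.1 = z'
    revert v0 v1 v2 v3 x y z x' y' z'
    decide

theorem lv_distinct (φ : Fm) (hb : Bounded3 φ) : ∀ g < 3 * φ.length,
    lv φ g 0 ≠ lv φ g 1 ∧ lv φ g 0 ≠ lv φ g 2 ∧ lv φ g 1 ≠ lv φ g 2 := by
  intro g hg
  have hc : g / 3 < φ.length := by omega
  obtain ⟨hb1, hb2, hb3⟩ := hb _ (clq_mem hc)
  have hr : g % 3 = 0 ∨ g % 3 = 1 ∨ g % 3 = 2 := by omega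
  unfold lv
  rcases hr with hr | hr | hr <;> simp only [hr, if_true, if_false, one_ne_zero, zero_ne_one,
        OfNat.ofNat_ne_zero, OfNat.ofNat_ne_one, 
        OfNat.zero_ne_ofNat, OfNat.one_ne_ofNat] <;> omega

theorem lv_lt (φ : Fm) (hb : Bounded3 φ) : ∀ g < 3 * φ.length, ∀ t < 3,
    lv φ g t < 7 * φ.length := by
  intro g hg t ht
  have hc : g / 3 < φ.length := by omega
  obtain ⟨hb1, hb2, hb3⟩ := hb _ (clq_mem hc)
  unfold lv
  split_ifs <;> omega

/-- The list of the vertices. -/
def vs (φ : Fm) : List Vx := VLs (7 * φ.length) (3 * φ.length)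

/-- The factor. -/
def DD (φ : Fm) : ℕ := 114 * φ.length + 1

/-- The labels of the rows and columns. -/
def labels (φ : Fm) : List Lb := FL (vs φ) (30 * φ.length * (114 * φ.length + 1))

/-- The entries. -/
def ent (φ : Fm) (x y : Lb) : Bool :=
  AA (cls (7 * φ.length)) (DD φ) (BB (lv φ) (ln φ)) x y

/-- The matrix of a formula. -/
def red (φ : Fm) : List (List Bool) :=
  (labels φ).map fun x => (labels φ).map fun y => ent φ x y

theorem correct (φ : Fm) (hb : Bounded3 φ) : SAT3 φ ↔ MS (red φ) := by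
  rw [sat_one3 φ hb]
  unfold red
  rw [ms_labels (labels φ) (nodup_FL nodup_VLs) (ent φ) (0, 0, 0, 0)]
  have hlen : (vs φ).length = 38 * φ.length := by
    unfold vs
    rw [length_VLs]
    ring
  constructor
  · rintro ⟨τ, hτ⟩
    obtain ⟨ρ, h1, h2⟩ := to_rho (P := 7 * φ.length) (lv_distinct φ hb) τ hτ
    exact ⟨_, of_invol h1 h2⟩
  · rintro ⟨p, hp⟩
    obtain ⟨ρ, h1, h2⟩ := to_invol (VL := vs φ) (cl := cls (7 * φ.length)) (D := DD φ)
      (N := 30 * φ.length * (114 * φ.length + 1)) (B := BB (lv φ) (ln φ))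
      (by rw [hlen]; unfold DD; omega) (by
        intro v hv s hs
        have h3 := cls_lt hv
        have h4 : 3 * cls (7 * φ.length) v + s + 1 ≤ 30 * φ.length := by omega
        calc (3 * cls (7 * φ.length) v + s) * DD φ + DD φ
            = (3 * cls (7 * φ.length) v + s + 1) * DD φ := by ring
          _ ≤ 30 * φ.length * DD φ := Nat.mul_le_mul_right _ h4) hp
    exact of_rho (lv_distinct φ hb) (lv_lt φ hb) h1 h2

/-! ### Polynomial time -/

theorem clq_poly {α : Type} [TEnc α] {f : α → Fm} {g : α → ℕ} (hf : NPC.Poly f)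
    (hg : NPC.Poly g) : NPC.Poly (fun a => clq (f a) (g a)) := by
  unfold clq
  exact NPC.Poly.getD hf hg (NPC.Poly.const _)

attribute [fun_prop] clq_poly

attribute [local irreducible] clq

theorem lv_poly : NPC.Poly (fun x : Fm × (ℕ × ℕ) => lv x.1 x.2.1 x.2.2) := by
  unfold lv
  fun_prop

theorem ln_poly : NPC.Poly (fun x : Fm × (ℕ × ℕ) => ln x.1 x.2.1 x.2.2) := by
  unfold ln
  fun_prop

theorem lv_poly' {α : Type} [TEnc α] {f : α → Fm} {g t : α → ℕ} (hf : NPC.Poly f)
    (hg : NPC.Poly g) (ht : NPC.Poly t) : NPC.Poly (fun a => lv (f a) (g a) (t a)) :=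
  lv_poly.comp (hf.pair (hg.pair ht))

theorem ln_poly' {α : Type} [TEnc α] {f : α → Fm} {g t : α → ℕ} (hf : NPC.Poly f)
    (hg : NPC.Poly g) (ht : NPC.Poly t) : NPC.Poly (fun a => ln (f a) (g a) (t a)) :=
  ln_poly.comp (hf.pair (hg.pair ht))

attribute [fun_prop] lv_poly' ln_poly'

attribute [local irreducible] lv ln

theorem ff_poly : NPC.Poly (fun x : ℕ × ℕ => ff x.1 x.2) := by
  unfold ff
  fun_prop

theorem ff_poly' {α : Type} [TEnc α] {g t : α → ℕ}
    (hg : NPC.Poly g) (ht : NPC.Poly t) : NPC.Poly (fun a => ff (g a) (t a)) :=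
  ff_poly.comp (hg.pair ht)

attribute [fun_prop] ff_poly'

theorem ofs_poly : NPC.Poly (fun x : Fm × (ℕ × ℕ) => ofs (ln x.1) x.2.1 x.2.2) := by
  have h : (fun x : Fm × (ℕ × ℕ) => ofs (ln x.1) x.2.1 x.2.2) =
      (fun x : Fm × (ℕ × ℕ) => (if x.2.2 = 2 then 1 else 0) +
        (if ln x.1 x.2.1 x.2.2 = true then 1 else 0)) := by
    funext x
    unfold ofs of2
    cases ln x.1 x.2.1 x.2.2 <;> rfl
  rw [h]
  fun_prop

theorem ofs_poly' {α : Type} [TEnc α] {f : α → Fm} {g t : α → ℕ} (hf : NPC.Poly f)
    (hg : NPC.Poly g) (ht : NPC.Poly t) : NPC.Poly (fun a => ofs (ln (f a)) (g a) (t a)) :=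
  ofs_poly.comp (hf.pair (hg.pair ht))

attribute [fun_prop] ofs_poly'

attribute [local irreducible] ff ofs

theorem link_poly : NPC.Poly (fun x : Fm × (ℕ × ℕ × ℕ × ℕ × ℕ) =>
    link (lv x.1) (ln x.1) x.2.1 x.2.2.1 x.2.2.2.1 x.2.2.2.2.1 x.2.2.2.2.2) := by
  unfold link
  fun_prop

theorem link_poly' {α : Type} [TEnc α] {f : α → Fm} {g c j k r : α → ℕ} (hf : NPC.Poly f)
    (hg : NPC.Poly g) (hc : NPC.Poly c) (hj : NPC.Poly j) (hk : NPC.Poly k) (hr : NPC.Poly r) :
    NPC.Poly (fun a => link (lv (f a)) (ln (f a)) (g a) (c a) (j a) (k a) (r a)) :=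
  link_poly.comp (hf.pair (hg.pair (hc.pair (hj.pair (hk.pair hr)))))

attribute [fun_prop] link_poly'

attribute [local irreducible] link

theorem BB_poly : NPC.Poly (fun x : Fm × (Vx × Vx) => BB (lv x.1) (ln x.1) x.2.1 x.2.2) := by
  unfold BB adj8
  fun_prop

theorem BB_poly' {α : Type} [TEnc α] {f : α → Fm} {g t : α → Vx} (hf : NPC.Poly f)
    (hg : NPC.Poly g) (ht : NPC.Poly t) : NPC.Poly (fun a => BB (lv (f a)) (ln (f a)) (g a) (t a)) :=
  BB_poly.comp (hf.pair (hg.pair ht))

attribute [fun_prop] BB_poly'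

attribute [local irreducible] BB

theorem ent_poly : NPC.Poly (fun x : Fm × (Lb × Lb) => ent x.1 x.2.1 x.2.2) := by
  unfold ent AA wt cls DD
  fun_prop

attribute [local irreducible] ent

theorem vs_poly : NPC.Poly vs := by
  unfold vs VLs
  have h1 : UPoly (fun φ : Fm => φ.length) := UPoly.length NPC.Poly.id
  refine NPC.Poly.append ?_ ?_
  · exact NPC.Poly.flatMap (l := fun φ : Fm => List.range (7 * φ.length))
      (F := fun _ c => [((0, c, 0) : Vx), (0, c, 1)]) ((UPoly.const 7).mul h1).range (by fun_prop)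
  · exact NPC.Poly.flatMap (l := fun φ : Fm => List.range (3 * φ.length))
      (F := fun _ g => (List.range 8).map fun j => ((1, g, j) : Vx))
      ((UPoly.const 3).mul h1).range (by fun_prop)

theorem labels_poly : NPC.Poly labels := by
  unfold labels FL
  have h1 : UPoly (fun φ : Fm => φ.length) := UPoly.length NPC.Poly.id
  refine NPC.Poly.append ?_ ?_
  · exact NPC.Poly.flatMap (l := fun _ : Fm => List.range 3)
      (F := fun φ s => (vs φ).map fun v => ((s, v) : Lb)) (NPC.Poly.const _)
      (NPC.Poly.map (l := fun x : Fm × ℕ => vs x.1) (F := fun x v => ((x.2, v) : Lb))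
        (vs_poly.comp (NPC.Poly.fst NPC.Poly.id)) (by fun_prop))
  · exact NPC.Poly.map (l := fun φ : Fm => List.range (30 * φ.length * (114 * φ.length + 1)))
      (F := fun _ e => ((3, e, 0, 0) : Lb))
      (((UPoly.const 30).mul h1).mul (((UPoly.const 114).mul h1).add (UPoly.const 1))).range
      (by fun_prop)

theorem red_poly : NPC.Poly red := by
  unfold red
  refine NPC.Poly.map (l := labels) (F := fun φ x => (labels φ).map fun y => ent φ x y)
    labels_poly ?_
  refine NPC.Poly.map (l := fun x : Fm × Lb => labels x.1) (F := fun x y => ent x.1 x.2 y)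
    (labels_poly.comp (NPC.Poly.fst NPC.Poly.id)) ?_
  have h := ent_poly.comp (f := fun x : (Fm × Lb) × Lb => (x.1.1, (x.1.2, x.2))) (by fun_prop)
  exact h

theorem hard : HardPr (fun _ => True) MS :=
  hardPr_SAT3b.trans red_poly (fun _ _ => trivial) (fun φ h => correct φ h.2.1)

/-! ### Membership in NP -/

theorem sz_perm {α : Type} [TEnc α] {l l' : List α} (h : l.Perm l') : sz l = sz l' := by
  induction h with
  | nil => rfl
  | cons x _ ih => rw [sz_list_cons, sz_list_cons, ih]
  | swap x y l => simp only [sz_list_cons]; omega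
  | trans _ _ ih1 ih2 => exact ih1.trans ih2

theorem length_lt_sz' {α : Type} [TEnc α] (l : List α) : l.length < sz l := by
  induction l with
  | nil => simp
  | cons a l ih => rw [sz_list_cons, List.length_cons]; omega

/-- The test of a certificate. -/
def chk (x : List (List Bool) × List ℕ) : Bool :=
  x.1.all (fun r => decide (r.length = x.1.length)) && (decide (x.2.length = x.1.length) &&
    ((List.range x.1.length).all (fun i => decide (i ∈ x.2)) &&
      (List.range x.1.length).all (fun i => (List.range x.1.length).all (fun j =>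
        entry x.1 (x.2.getD i 0) j == entry x.1 (x.2.getD j 0) i))))

theorem entry_poly {α : Type} [TEnc α] {f : α → List (List Bool)} {i j : α → ℕ}
    (hf : NPC.Poly f) (hi : NPC.Poly i) (hj : NPC.Poly j) :
    NPC.Poly (fun a => entry (f a) (i a) (j a)) := by
  unfold entry
  exact NPC.Poly.getD (NPC.Poly.getD hf hi (NPC.Poly.const _)) hj (NPC.Poly.const _)

attribute [fun_prop] entry_poly

theorem chk_poly : NPC.Poly chk := by
  unfold chk
  have h1 : UPoly (fun x : List (List Bool) × List ℕ => x.1.length) :=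
    UPoly.length (NPC.Poly.fst NPC.Poly.id)
  refine NPC.Poly.and (by fun_prop) (NPC.Poly.and (by fun_prop) (NPC.Poly.and ?_ ?_))
  · exact NPC.Poly.all (l := fun x : List (List Bool) × List ℕ => List.range x.1.length)
      (p := fun x i => decide (i ∈ x.2)) h1.range (by fun_prop)
  · refine NPC.Poly.all (l := fun x : List (List Bool) × List ℕ => List.range x.1.length)
      (p := fun x i => (List.range x.1.length).all (fun j =>
        entry x.1 (x.2.getD i 0) j == entry x.1 (x.2.getD j 0) i)) h1.range ?_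
    refine NPC.Poly.all (l := fun x : (List (List Bool) × List ℕ) × ℕ => List.range x.1.1.length)
      (p := fun x j => entry x.1.1 (x.1.2.getD x.2 0) j == entry x.1.1 (x.1.2.getD j 0) x.2)
      (h1.comp (NPC.Poly.fst NPC.Poly.id)).range ?_
    have h2 : (fun x : ((List (List Bool) × List ℕ) × ℕ) × ℕ =>
        entry x.1.1.1 (x.1.1.2.getD x.1.2 0) x.2 == entry x.1.1.1 (x.1.1.2.getD x.2 0) x.1.2) =
        (fun x => decide (entry x.1.1.1 (x.1.1.2.getD x.1.2 0) x.2 =
          entry x.1.1.1 (x.1.1.2.getD x.2 0) x.1.2)) := by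
      funext x
      rw [Bool.eq_iff_iff]
      simp
    rw [h2]
    fun_prop

theorem ms_chk (A : List (List Bool)) : MS A ↔ ∃ w : List ℕ,
    sz w ≤ (Polynomial.X * (4 * Polynomial.X + 2) + 1 : Polynomial ℕ).eval (sz A) ∧
      chk (A, w) = true := by
  unfold MS
  rw [perm_iff]
  have hchk : ∀ w, chk (A, w) = true ↔ (∀ r ∈ A, r.length = A.length) ∧ w.length = A.length ∧
      (∀ i < A.length, i ∈ w) ∧ ∀ i < A.length, ∀ j < A.length,
        entry A (w.getD i 0) j = entry A (w.getD j 0) i := by
    intro w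
    unfold chk
    simp only [Bool.and_eq_true, List.all_eq_true, decide_eq_true_eq, List.mem_range, beq_iff_eq]
  constructor
  · rintro ⟨hsq, σ, hσ, h⟩
    have hget : ∀ i < A.length, ((List.range A.length).map σ).getD i 0 = σ i := by
      intro i hi
      rw [List.getD_eq_getElem _ _ (by simpa using hi)]
      simp
    have hnd : ((List.range A.length).map σ).Nodup := by
      rw [List.nodup_map_iff_inj_on List.nodup_range]
      intro x hx y hy hxy
      exact hσ.2.1 (List.mem_range.1 hx) (List.mem_range.1 hy) hxy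
    have hperm : ((List.range A.length).map σ).Perm (List.range A.length) := by
      refine (List.perm_ext_iff_of_nodup hnd List.nodup_range).2 (fun x => ?_)
      rw [List.mem_map, List.mem_range]
      constructor
      · rintro ⟨i, hi, rfl⟩
        exact hσ.1 (List.mem_range.1 hi)
      · intro hx
        obtain ⟨i, hi, hix⟩ := hσ.2.2 hx
        exact ⟨i, List.mem_range.2 hi, hix⟩
    refine ⟨(List.range A.length).map σ, ?_, (hchk _).2 ⟨hsq, by simp, ?_, ?_⟩⟩
    · rw [sz_perm hperm]
      have h1 := NPC.Poly.sz_range_le A.length A.length le_rfl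
      have h2 := (length_lt_sz' A).le
      simp only [Polynomial.eval_add, Polynomial.eval_mul, Polynomial.eval_X, Polynomial.eval_ofNat,
        Polynomial.eval_one]
      refine h1.trans (Nat.add_le_add_right (Nat.mul_le_mul h2 (by omega)) _)
    · intro i hi
      rw [hperm.mem_iff, List.mem_range]
      exact hi
    · intro i hi j hj
      rw [hget i hi, hget j hj]
      exact h i hi j hj
  · rintro ⟨w, _, hw⟩
    obtain ⟨hsq, hlen, hall, h⟩ := (hchk w).1 hw
    have hperm : (List.range A.length).Perm w := by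
      refine (List.subperm_of_subset List.nodup_range (fun x hx => hall x
        (List.mem_range.1 hx))).perm_of_length_le ?_
      rw [hlen, List.length_range]
    have hnd : w.Nodup := hperm.nodup_iff.1 List.nodup_range
    have hget : ∀ i, (hi : i < w.length) → w.getD i 0 = w[i] := fun i hi =>
      List.getD_eq_getElem _ _ hi
    refine ⟨hsq, fun i => w.getD i 0, ⟨?_, ?_, ?_⟩, h⟩
    · intro i hi
      have hi' : i < w.length := by rw [hlen]; exact hi
      simp only [Set.mem_ofPred_eq]
      rw [hget i hi', ← List.mem_range, hperm.mem_iff]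
      exact List.getElem_mem hi'
    · intro i hi j hj hij
      have hi' : i < w.length := by rw [hlen]; exact hi
      have hj' : j < w.length := by rw [hlen]; exact hj
      simp only at hij
      rw [hget i hi', hget j hj'] at hij
      exact (List.Nodup.getElem_inj_iff hnd).1 hij
    · intro x hx
      obtain ⟨i, hi, hix⟩ := List.getElem_of_mem (hall x hx)
      refine ⟨i, by rw [Set.mem_ofPred_eq, ← hlen]; exact hi, ?_⟩
      simp only
      rw [hget i hi, hix]

theorem inNP : InNPP MS := inNPP_of chk_poly _ ms_chk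

/-- Deciding whether the rows of a square 0-1 matrix can be reordered to give a symmetric matrix is
`NP`-complete. Hence this problem reduces to graph isomorphism if and only if graph isomorphism is
`NP`-hard. -/
theorem result : NPHardP MS ∧ InNPP MS ∧ (Reduces (lang MS) (lang GI) ↔ NPHardP GI) := by
  have h1 : NPHardP MS := hard.toHardI.toNPHardP
  refine ⟨h1, inNP, ?_, ?_⟩
  · intro h L hL
    exact Reduces.trans (h1 L hL) h
  · intro h
    exact h _ inNP

end Pool.Agent.Results.MP_e2e0ab_lc.MatrixSymmetryNPComplete
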